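import Pool.Agent.K44.Graph

/-!
# Graphs given by one bilinear equation: K(4,4)-free implies O(n^(5/3)) edges

Brown's graph is given by one equation `b(x, y) = f(x) + g(y)` with `b` bilinear: its vertices are the points of
a three dimensional space over a field with `q` elements, the values lie in the field, and it has about
`n ^ (2 - 1/3)` edges.  With values in an `r`-dimensional space and `x, y` in a `d`-dimensional one the
same equation gives about `n ^ (2 - r/d)` edges, so it could give every exponent between 5/3 and 7/4.

The theorem below says that no choice of the (arbitrary) functions `f, g`, of the bilinear map `b` and of the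
finite abelian groups which replace the vector spaces gives a K(4,4)-free graph with more than a constant
times `n ^ (5/3)` edges.  It is stated for incidence graphs of points `(x, z)` and flats `(y, w)`,
with `h y x = z + w`, where `h y : X →+ Z` are homomorphisms such that `h y a` is equidistributed for every
`a ≠ 0`; the equation `b(x, y) = f(x) + g(y)` is the case of the points `(x, f x)` and the flats `(y, g y)`.
-/

set_option autoImplicit false

open Pool.Agent.K44

namespace Pool.Agent.Results.MP_f9ea82_co.BilinearType

/-- Let `X`, `Z` be finite abelian groups, `Y` a finite set and `h y : X →+ Z` (for `y` in `Y`)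
homomorphisms such that for every `a ≠ 0` the values `h y a` are equidistributed in `Z`.  Let `G` be a simple
graph with `n` vertices, every edge of which joins a vertex `u` of `S` and a vertex `v` of `T` such that the point
`P u = (x, z)` and the flat `Q v = (y, w)` are incident, `h y x = z + w`.  If `G` has at least `c` times as many
edges as there are incident pairs (up to `n`) and contains no `K(4, t)`, then it has at most
`(8 + 24 (t + 1) / c) n (n ^ (2/3) + |X| ^ (1/2) + |Y| ^ (1/2))` edges. -/
theorem result (t : ℕ) (c : ℝ) (hc : 0 < c) (hc1 : c ≤ 1)
    {V X Y Z : Type} [Finite V] [Finite X] [Finite Y] [Finite Z] [AddCommGroup X] [AddCommGroup Z]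
    (h : Y → X →+ Z) (he : Equidist h)
    (S T : Set V) (P : V → X × Z) (Q : V → Y × Z) (hP : Set.InjOn P S) (hQ : Set.InjOn Q T)
    (G : SimpleGraph V)
    (hG : ∀ u v, G.Adj u v → IncPair h S T P Q (u, v) ∨ IncPair h S T P Q (v, u))
    (hcI : c * (Nat.card {e : V × V // IncPair h S T P Q e} : ℝ)
      ≤ Nat.card G.edgeSet + Nat.card V)
    (hf : (completeBipartiteGraph (Fin 4) (Fin t)).Free G) :
    (Nat.card G.edgeSet : ℝ) ≤ (8 + 24 * (t + 1) / c) * Nat.card V *
      ((Nat.card V : ℝ) ^ (2 / 3 : ℝ) + Real.sqrt (Nat.card X) + Real.sqrt (Nat.card Y)) := by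
  classical
  have : Fintype V := Fintype.ofFinite V
  have : Fintype X := Fintype.ofFinite X
  have : Fintype Y := Fintype.ofFinite Y
  have : Fintype Z := Fintype.ofFinite Z
  have hV : Nat.card V = Fintype.card V := Nat.card_eq_fintype_card
  have hX : Nat.card X = Fintype.card X := Nat.card_eq_fintype_card
  have hY : Nat.card Y = Fintype.card Y := Nat.card_eq_fintype_card
  rw [hV] at hcI
  have hb := edge_bound h S T P Q G t c hc hc1 he hP hQ hG hcI hf
  rw [hV, hX, hY]
  have hk : (8 + 8 * ((t : ℝ) + 1) * (3 / c)) = 8 + 24 * (t + 1) / c := by ring
  rw [hk] at hb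
  exact hb

end Pool.Agent.Results.MP_f9ea82_co.BilinearType
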